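import Pool.Agent.helper17.RX.Spec

/-! Row rx:DRX of project RX (MP_f42afa_pr): from the cube to the coins of the lattice, directly from ENX. -/

set_option autoImplicit false

namespace TP.TW

open DP MeasureTheory Finset

private theorem DRX_prob : IsProbabilityMeasure P1 := by
  unfold P1
  infer_instance

private theorem DRX_nonneg (F : Set (V → Bool)) : 0 ≤ Pr F := measureReal_nonneg

private theorem DRX_mono {F G : Set (V → Bool)} (h : F ⊆ G) : Pr F ≤ Pr G := by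
  have := DRX_prob
  exact measureReal_mono h

private theorem DRX_le_one (F : Set (V → Bool)) : Pr F ≤ 1 := by
  have := DRX_prob
  exact measureReal_le_one

/-- rounds -/
private def DRX_ro (S : ℕ → (V → Bool) → Finset V) (Ω : Finset V) : Prop :=
  (∀ β, S 0 β = ∅) ∧ (∀ i β, S i β ⊆ S (i + 1) β) ∧ (∀ i β, S i β ⊆ Ω) ∧
  ∀ i (β β' : V → Bool), (∀ v ∈ S i β, β' v = β v) → S (i + 1) β' = S (i + 1) β

/-- the shifted configuration -/
private def DRX_sh (τ : V) (β : V → Bool) : V → Bool := fun v => β (v.1 + τ.1, v.2 + τ.2)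

private theorem DRX_dep (S : ℕ → (V → Bool) → Finset V) (Ω : Finset V) (h : DRX_ro S Ω) (i : ℕ) (β β' : V → Bool)
    (hb : ∀ v ∈ Ω, β' v = β v) : S i β' = S i β := by
  induction i with
  | zero => rw [h.1, h.1]
  | succ i ih => exact h.2.2.2 i β β' fun v hv => hb v (h.2.2.1 i β hv)

private theorem DRX_mon (S : ℕ → (V → Bool) → Finset V) (Ω : Finset V) (h : DRX_ro S Ω) (i j : ℕ) (hij : i ≤ j) (β : V → Bool) :
    S i β ⊆ S j β := by
  induction hij with
  | refl => exact Subset.rfl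
  | step _ ih => exact ih.trans (h.2.1 _ β)

private theorem DRX_sum (T U : Finset V) (z : V) (f : V → ℝ) (hf : ∀ v, 0 ≤ f v)
    (h : ∀ τ ∈ T, (z.1 - τ.1, z.2 - τ.2) ∈ U) :
    ∑ τ ∈ T, f (z.1 - τ.1, z.2 - τ.2) ≤ ∑ v ∈ U, f v := by
  classical
  have hinj : Set.InjOn (fun τ : V => ((z.1 - τ.1, z.2 - τ.2) : V)) (T : Set V) := by
    intro τ _ σ _ hτσ
    have h1 : z.1 - τ.1 = z.1 - σ.1 := congrArg Prod.fst hτσ
    have h2 : z.2 - τ.2 = z.2 - σ.2 := congrArg Prod.snd hτσ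
    exact Prod.ext (by omega) (by omega)
  rw [← Finset.sum_image (f := f) hinj]
  refine Finset.sum_le_sum_of_subset_of_nonneg ?_ fun v _ _ => hf v
  intro v hv
  obtain ⟨τ, hτ, rfl⟩ := Finset.mem_image.1 hv
  exact h τ hτ

theorem DRX (enx : EN.ENX_stmt) (prn : PRN_stmt) (shp : SHP_stmt) : DRX_stmt := by
  classical
  intro Ω S R hR hΩ
  have hent := enx R
  have h : DRX_ro S Ω := ⟨hR.1, fun i β => (hR.2.1 i β).1, fun i β => (hR.2.1 i β).2,
    fun i β β' hb => (hR.2.2 i β β' fun v hv => (hb v hv).symm).symm⟩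
  refine ⟨hΩ, fun β => h.2.2.1 _ β, ⟨Ω, fun β β' hb => (DRX_dep S Ω h (R + 1) β β' fun v hv => (hb v hv).symm).symm⟩,
    fun v => DRX_nonneg _, ?_, by positivity, ?_⟩
  · intro v hv
    have h1 : {β : V → Bool | v ∈ S (R + 1) β} = ∅ := by
      ext β
      simp only [Set.mem_empty_iff_false, iff_false]
      intro h2
      exact hv (h.2.2.1 _ β h2)
    show Pr {β : V → Bool | v ∈ S (R + 1) β} = 0
    rw [h1]
    simp [Pr]
  intro T U Λ z E hE hU
  show ∑ τ ∈ T, Pr (E ∩ {β | ((z.1 - τ.1, z.2 - τ.2) : V) ∈ S (R + 1) (DRX_sh τ β)}) ≤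
    (204 * ((R : ℝ) + 1)) ^ R * Pr E * (Real.log (1 / Pr E) + Real.log (#T + #Λ + 3)) ^ R * ∑ v ∈ U, Pr {β | v ∈ S (R + 1) β}
  set wt : V → ℝ := fun v => Pr {β : V → Bool | v ∈ S (R + 1) β} with hwt
  have hwt0 : ∀ v, 0 ≤ wt v := fun v => DRX_nonneg _
  set N : ℝ := ∑ v ∈ U, wt v with hN
  have hN0 : 0 ≤ N := sum_nonneg fun v _ => hwt0 v
  rcases (DRX_nonneg E).eq_or_lt with hp | hp
  · rw [← hp, mul_zero, zero_mul, zero_mul]
    refine sum_nonpos fun τ _ => ?_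
    rw [hp]
    exact DRX_mono Set.inter_subset_left
  set p : ℝ := Pr E with hpd
  have hp1 : p ≤ 1 := DRX_le_one E
  -- the window
  obtain ⟨W, hW⟩ : ∃ W : Finset V, W = insert z Λ ∪ T.biUnion (fun τ => Ω.image fun v => ((v.1 + τ.1, v.2 + τ.2) : V)) := ⟨_, rfl⟩
  have hzΛ : insert z Λ ⊆ W := hW ▸ subset_union_left
  have hΛW : Λ ⊆ W := (subset_insert z Λ).trans hzΛ
  have hzW : z ∈ W := hzΛ (mem_insert_self z Λ)
  have hΩW : ∀ τ ∈ T, ∀ v ∈ Ω, ((v.1 + τ.1, v.2 + τ.2) : V) ∈ W := by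
    intro τ hτ v hv
    rw [hW, mem_union, mem_biUnion]
    exact Or.inr ⟨τ, hτ, mem_image.2 ⟨v, hv, rfl⟩⟩
  obtain ⟨e⟩ : Nonempty ({v // v ∈ W} ≃ Fin #W) := ⟨W.equivFin⟩
  set en : Fin #W → V := fun i => ((e.symm i : {v // v ∈ W}) : V) with hen
  have henW : ∀ i, en i ∈ W := fun i => (e.symm i).2
  have hε : Function.Injective en := by
    intro i j h
    exact e.symm.injective (Subtype.ext h)
  have hene : ∀ v (hv : v ∈ W), en (e ⟨v, hv⟩) = v := by
    intro v hv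
    simp only [hen, Equiv.symm_apply_apply]
  obtain ⟨ex, hex⟩ : ∃ ex : (Fin #W → Bool) → V → Bool, ∀ x v (h : v ∈ W), ex x v = x (e ⟨v, h⟩) :=
    ⟨fun x v => if h : v ∈ W then x (e ⟨v, h⟩) else false, fun x v h => dif_pos h⟩
  have hex1 : ∀ (β : V → Bool), ∀ v ∈ W, ex (fun i => β (en i)) v = β v := by
    intro β v hv
    rw [hex _ v hv, hene v hv]
  have hPr : ∀ G : Set (V → Bool), CD G W → ∀ [DecidablePred fun x : Fin #W → Bool => ex x ∈ G],
      Pr G = (#(univ.filter fun x : Fin #W → Bool => ex x ∈ G) : ℝ) / 2 ^ #W := by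
    intro G hG _
    have h1 : G = {β : V → Bool | (fun x => ex x ∈ G) (fun i => β (en i))} := by
      ext β
      exact (hG _ _ (hex1 β)).symm
    have h2 := prn #W en hε (fun x => ex x ∈ G)
    rw [← h1] at h2
    rw [h2]
    congr 2
    refine congrArg Finset.card ?_
    ext x
    simp only [mem_filter]
  have hEW : CD E W := fun b b' hb => hE b b' fun v hv => hb v (hΛW hv)
  -- the algorithms on the cube
  let S' : V → ℕ → EN.Om #W → Finset (Fin #W) := fun τ i x =>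
    univ.filter fun j : Fin #W => (((en j).1 - τ.1, (en j).2 - τ.2) : V) ∈ S (min i (R + 1)) (DRX_sh τ (ex x))
  have hS' : ∀ τ i x j, j ∈ S' τ i x ↔ (((en j).1 - τ.1, (en j).2 - τ.2) : V) ∈ S (min i (R + 1)) (DRX_sh τ (ex x)) := by
    intro τ i x j
    simp only [S', mem_filter, mem_univ, true_and]
  have hagree : ∀ τ ∈ T, ∀ i x y, (∀ u ∈ S' τ i x, y u = x u) → ∀ v ∈ S (min i (R + 1)) (DRX_sh τ (ex x)), DRX_sh τ (ex y) v = DRX_sh τ (ex x) v := by
    intro τ hτ i x y hxy v hv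
    have hvΩ := h.2.2.1 _ _ hv
    have hvW := hΩW τ hτ v hvΩ
    show ex y (v.1 + τ.1, v.2 + τ.2) = ex x (v.1 + τ.1, v.2 + τ.2)
    rw [hex _ _ hvW, hex _ _ hvW]
    apply hxy
    rw [hS', hene]
    have h5 : ((v.1 + τ.1 - τ.1, v.2 + τ.2 - τ.2) : V) = v := Prod.ext (by simp) (by simp)
    rw [h5]
    exact hv
  have hRounds : ∀ τ ∈ T, EN.Rounds (S' τ) := by
    intro τ hτ
    refine ⟨fun x => ?_, fun i x => ⟨?_, fun y hxy => ?_⟩⟩
    · ext j
      rw [hS', Nat.zero_min, h.1]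
      simp
    · intro j hj
      rw [hS'] at hj ⊢
      exact DRX_mon S Ω h _ _ (by omega) _ hj
    · have h3 := hagree τ hτ i x y hxy
      have h4 : S (min (i + 1) (R + 1)) (DRX_sh τ (ex y)) = S (min (i + 1) (R + 1)) (DRX_sh τ (ex x)) := by
        by_cases hi : i ≤ R
        · have h5 : min (i + 1) (R + 1) = min i (R + 1) + 1 := by omega
          rw [h5]
          exact h.2.2.2 _ _ _ h3
        · have h5 : min (i + 1) (R + 1) = R + 1 := by omega
          have h6 : min i (R + 1) = R + 1 := by omega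
          rw [h5]
          rw [h6] at h3
          exact h.2.2.2 R _ _ fun v hv => h3 v (h.2.1 R _ hv)
      ext j
      rw [hS', hS', h4]
  set z' : Fin #W := e ⟨z, hzW⟩ with hz'
  set Λ' : Finset (Fin #W) := univ.filter fun j => en j ∈ Λ with hΛ'
  have henz : en z' = z := hene z hzW
  have hmem' : ∀ v ∈ insert z' Λ', en v ∈ insert z Λ := by
    intro v hv
    rcases mem_insert.1 hv with rfl | hv
    · rw [henz]
      exact mem_insert_self _ _
    · rw [hΛ', mem_filter] at hv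
      exact mem_insert_of_mem hv.2
  have hcdS : ∀ τ ∈ T, ∀ (i : ℕ) (u : V), CD {β | u ∈ S i (DRX_sh τ β)} W := by
    intro τ hτ i u b b' hb
    show u ∈ S i (DRX_sh τ b) ↔ u ∈ S i (DRX_sh τ b')
    rw [DRX_dep S Ω h i (DRX_sh τ b) (DRX_sh τ b') fun v hv => (hb _ (hΩW τ hτ v hv)).symm]
  have hcount : ∀ i : ℕ, ∀ v ∈ insert z' Λ', ∑ τ ∈ T, (#{x : EN.Om #W | v ∈ S' τ i x} : ℝ) / 2 ^ #W ≤ N := by
    intro i v hv
    have hv' := hmem' v hv
    refine le_trans (sum_le_sum fun τ hτ => ?_) (DRX_sum T U (en v) wt hwt0 fun τ hτ => hU _ hv' τ hτ)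
    have h3 := hPr _ (hcdS τ hτ (min i (R + 1)) ((en v).1 - τ.1, (en v).2 - τ.2))
    have h4 : (#{x : EN.Om #W | v ∈ S' τ i x} : ℝ) / 2 ^ #W =
        Pr {β | (((en v).1 - τ.1, (en v).2 - τ.2) : V) ∈ S (min i (R + 1)) (DRX_sh τ β)} := by
      rw [h3]
      congr 2
      refine congrArg Finset.card ?_
      ext x
      constructor
      · intro hx
        exact mem_filter.2 ⟨mem_univ _, (hS' τ i x v).1 (mem_filter.1 hx).2⟩
      · intro hx
        exact mem_filter.2 ⟨mem_univ _, (hS' τ i x v).2 (mem_filter.1 hx).2⟩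
    rw [h4]
    have h5 : Pr {β | (((en v).1 - τ.1, (en v).2 - τ.2) : V) ∈ S (min i (R + 1)) (DRX_sh τ β)} =
        Pr {β | (((en v).1 - τ.1, (en v).2 - τ.2) : V) ∈ S (min i (R + 1)) β} := by
      refine shp {β | (((en v).1 - τ.1, (en v).2 - τ.2) : V) ∈ S (min i (R + 1)) β} Ω ?_ τ.1 τ.2
      intro b b' hb
      show _ ∈ S _ b ↔ _ ∈ S _ b'
      rw [DRX_dep S Ω h _ b b' fun v hv => (hb v hv).symm]
    rw [h5]
    exact DRX_mono fun β hβ => DRX_mon S Ω h _ _ (Nat.min_le_right _ _) β hβ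
  -- the law
  set Q : EN.Om #W → ℝ := fun x => if ex x ∈ E then 1 / (2 ^ #W * p) else 0 with hQ
  have h2m : (0 : ℝ) < 2 ^ #W := by positivity
  have hQ0 : ∀ x, 0 ≤ Q x := by
    intro x
    simp only [hQ]
    split_ifs
    · positivity
    · exact le_rfl
  have hsumQ : ∀ (P : EN.Om #W → Prop) [DecidablePred P], ∑ x with P x, Q x =
      (#(univ.filter fun x : EN.Om #W => P x ∧ ex x ∈ E) : ℝ) / 2 ^ #W / p := by
    intro P _
    simp only [hQ]
    rw [← sum_filter, filter_filter, sum_const, nsmul_eq_mul]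
    field_simp
  have hLaw : EN.Law Q := by
    refine ⟨hQ0, ?_⟩
    have h3 := hsumQ (fun _ => True)
    have h4 := hPr E hEW
    have h5 : ∑ x, Q x = ∑ x with True, Q x := by
      rw [filter_true]
    rw [h5, h3]
    simp only [true_and]
    rw [← h4, ← hpd]
    exact div_self hp.ne'
  have hQΛ : ∀ x y : EN.Om #W, (∀ u ∈ Λ', x u = y u) → Q x = Q y := by
    intro x y hxy
    have h3 : ex x ∈ E ↔ ex y ∈ E := by
      refine hE _ _ fun v hv => ?_
      rw [hex _ _ (hΛW hv), hex _ _ (hΛW hv)]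
      apply hxy
      rw [hΛ', mem_filter, hene]
      exact ⟨mem_univ _, hv⟩
    simp only [hQ, h3]
  set L : ℝ := Real.log (1 / p) with hL
  have hL0 : 0 ≤ L := Real.log_nonneg ((one_le_div hp).2 hp1)
  have hQL : ∀ x, Q x ≤ Real.exp L / 2 ^ #W := by
    intro x
    rw [hL, Real.exp_log (by positivity)]
    simp only [hQ]
    split_ifs
    · apply le_of_eq
      field_simp
    · positivity
  have key := hent #W V T S' Λ' z' N hRounds (fun i v hv => by
      have h3 := hcount i v (by simpa using hv)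
      simpa using h3) Q L hLaw hQΛ hL0 hQL z' (mem_insert_self _ _)
  have hterm : ∀ τ ∈ T, ∑ x with z' ∈ S' τ (R + 1) x, Q x =
      Pr (E ∩ {β | ((z.1 - τ.1, z.2 - τ.2) : V) ∈ S (R + 1) (DRX_sh τ β)}) / p := by
    intro τ hτ
    rw [hsumQ (fun x => z' ∈ S' τ (R + 1) x)]
    have h3 : CD (E ∩ {β | ((z.1 - τ.1, z.2 - τ.2) : V) ∈ S (R + 1) (DRX_sh τ β)}) W :=
      fun b b' hb => and_congr (hEW b b' hb) (hcdS τ hτ (R + 1) _ b b' hb)
    rw [hPr _ h3]
    congr 3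
    refine congrArg Finset.card ?_
    ext x
    constructor
    · intro hx
      have h4 := (mem_filter.1 hx).2
      have h5 := (hS' τ (R + 1) x z').1 h4.1
      rw [Nat.min_self, henz] at h5
      exact mem_filter.2 ⟨mem_univ _, h4.2, h5⟩
    · intro hx
      have h4 := (mem_filter.1 hx).2
      refine mem_filter.2 ⟨mem_univ _, (hS' τ (R + 1) x z').2 ?_, h4.1⟩
      rw [Nat.min_self, henz]
      exact h4.2
  have key2 : ∑ τ ∈ T, Pr (E ∩ {β | ((z.1 - τ.1, z.2 - τ.2) : V) ∈ S (R + 1) (DRX_sh τ β)}) / p ≤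
      N * (68 * (L + 3 * ((R : ℝ) + 1) * Real.log (#Λ' + 3))) ^ R := by
    rw [← sum_congr rfl hterm]
    refine le_trans (le_of_eq ?_) key
    refine sum_congr rfl fun τ _ => ?_
    refine sum_congr ?_ fun x _ => rfl
    ext x
    simp only [mem_filter]
  rw [← sum_div, div_le_iff₀ hp] at key2
  refine key2.trans ?_
  have hcΛ : #Λ' ≤ #Λ := by
    refine card_le_card_of_injOn en ?_ hε.injOn
    intro j hj
    rw [mem_coe, hΛ', mem_filter] at hj
    exact hj.2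
  have hcΛ' : (#Λ' : ℝ) ≤ #Λ := by exact_mod_cast hcΛ
  have hT0 : (0 : ℝ) ≤ #T := Nat.cast_nonneg _
  have hΛ0 : (0 : ℝ) ≤ #Λ' := Nat.cast_nonneg _
  have hlog : Real.log ((#Λ' : ℝ) + 3) ≤ Real.log ((#T : ℝ) + #Λ + 3) := Real.log_le_log (by linarith) (by linarith)
  have hlog0 : 0 ≤ Real.log ((#Λ' : ℝ) + 3) := Real.log_nonneg (by linarith)
  have hR0 : (0 : ℝ) ≤ (R : ℝ) := Nat.cast_nonneg _
  have hpow : (68 * (L + 3 * ((R : ℝ) + 1) * Real.log ((#Λ' : ℝ) + 3))) ^ R ≤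
      (204 * ((R : ℝ) + 1) * (L + Real.log ((#T : ℝ) + #Λ + 3))) ^ R := by
    refine pow_le_pow_left₀ (by positivity) ?_ R
    have h3 : 0 ≤ (R : ℝ) * L := mul_nonneg hR0 hL0
    have h4 : ((R : ℝ) + 1) * Real.log ((#Λ' : ℝ) + 3) ≤ ((R : ℝ) + 1) * Real.log ((#T : ℝ) + #Λ + 3) :=
      mul_le_mul_of_nonneg_left hlog (by linarith)
    linarith
  calc N * (68 * (L + 3 * ((R : ℝ) + 1) * Real.log ((#Λ' : ℝ) + 3))) ^ R * p ≤
        N * (204 * ((R : ℝ) + 1) * (L + Real.log ((#T : ℝ) + #Λ + 3))) ^ R * p := by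
        refine mul_le_mul_of_nonneg_right ?_ hp.le
        exact mul_le_mul_of_nonneg_left hpow hN0
    _ = (204 * ((R : ℝ) + 1)) ^ R * p * (L + Real.log ((#T : ℝ) + #Λ + 3)) ^ R * N := by
      rw [mul_pow]
      ring

end TP.TW
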